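import Pool.Agent.N859.QW.Defs2

/-!
# Strictly outer actions, cocycles and ergodic cocycle perturbations (short printed form)
-/

set_option autoImplicit false

open scoped InnerProductSpace
open Cardinal

namespace Pool.Agent.U183.EQ

open Pool.Agent.N859.QX

section general

variable {H : Type} [NormedAddCommGroup H] [InnerProductSpace ℂ H] [CompleteSpace H]

/-- `M` is a II₁ factor whose tracial state is the vector state of `ξ`: `M` is an infinite
dimensional factor and the vector state `x ↦ ⟨ξ, x ξ⟩` is a faithful trace. -/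
structure IsII1 (M : VonNeumannAlgebra H) (ξ : H) : Prop where
  factor : ∀ z ∈ M, z ∈ M.commutant → ∃ c : ℂ, z = c • (1 : H →L[ℂ] H)
  infinite : ¬ FiniteDimensional ℂ M.toStarSubalgebra
  unit : ‖ξ‖ = 1
  tracial : ∀ x ∈ M, ∀ y ∈ M, ⟪ξ, x (y ξ)⟫_ℂ = ⟪ξ, y (x ξ)⟫_ℂ
  faithful : ∀ x ∈ M, x ξ = 0 → x = 0

variable {G : Type} [Group G]
variable {E : Type} [NormedAddCommGroup E] [InnerProductSpace ℂ E] [CompleteSpace E]

/-- `T` is the operator `π(x)` on `E = ℓ²(G, H)`: `(π(x) ζ)(g) = α_g⁻¹(x) ζ(g)`. -/
structure IsCopy (c : E → G → H) {M : VonNeumannAlgebra H} (α : Action G M) (x : H →L[ℂ] H)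
    (T : E →L[ℂ] E) : Prop where
  eq : ∀ ζ g, c (T ζ) g = α.act g⁻¹ x (c ζ g)

/-- The action `α` of `G` on `M` is strictly outer: `N` is the crossed product `M ⋊ G` on
`E = ℓ²(G, H)`, and the operators in `N` that commute with `π(M)` are the scalars. -/
structure StrictlyOuter (c : E → G → H) {M : VonNeumannAlgebra H} (α : Action G M)
    (N : VonNeumannAlgebra E) : Prop where
  coords : IsL2 c
  crossed : IsCrossedProduct c α N
  scalar : ∀ T ∈ N, (∀ x ∈ M, ∀ S, IsCopy c α x S → T * S = S * T) →
    ∃ a : ℂ, T = a • (1 : E →L[ℂ] E)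

/-- `v` is a `1`-cocycle for the action `α`: a map to the unitaries of `M` with
`v (g h) = v g α_g(v h)`. -/
structure IsCocycle {M : VonNeumannAlgebra H} (α : Action G M) (v : G → H →L[ℂ] H) : Prop where
  mem : ∀ g, v g ∈ M
  star_mul : ∀ g, star (v g) * v g = 1
  mul_star : ∀ g, v g * star (v g) = 1
  mul : ∀ g h, v (g * h) = v g * α.act g (v h)

/-- The cocycle perturbation `g ↦ Ad(v g) ∘ α g` is ergodic: its fixed points in `M` are the
scalars. -/
structure IsErgodic {M : VonNeumannAlgebra H} (α : Action G M) (v : G → H →L[ℂ] H) : Prop where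
  scalar : ∀ x ∈ M, (∀ g, v g * α.act g x * star (v g) = x) → ∃ a : ℂ, x = a • (1 : H →L[ℂ] H)

/-- The Hilbert space `H` has a Hilbert basis of cardinality `κ`. -/
inductive HasDim (H : Type) [NormedAddCommGroup H] [InnerProductSpace ℂ H] [CompleteSpace H]
    (κ : Cardinal.{0}) : Prop
  | mk (ι : Type) (b : HilbertBasis ι ℂ H) (card : #ι = κ) : HasDim H κ

variable (G H E)

/-- There is a strictly outer action of `G` on a II₁ factor on `H` none of whose cocycle
perturbations is ergodic (with the crossed product on `E = ℓ²(G, H)`). -/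
inductive ExampleOn : Prop
  | mk (M : VonNeumannAlgebra H) (ξ : H) (isII1 : IsII1 M ξ) (α : Action G M) (c : E → G → H)
      (N : VonNeumannAlgebra E) (outer : StrictlyOuter c α N)
      (none : ∀ v, IsCocycle α v → ¬ IsErgodic α v) : ExampleOn

end general

/-- There is a strictly outer action of `G` on a II₁ factor on a Hilbert space of dimension `κ`
none of whose cocycle perturbations is ergodic. -/
inductive HasExample (G : Type) [Group G] (κ : Cardinal.{0}) : Prop
  | mk (H : Type) [NormedAddCommGroup H] [InnerProductSpace ℂ H] [CompleteSpace H]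
      (dim : HasDim H κ) (E : Type) [NormedAddCommGroup E] [InnerProductSpace ℂ E]
      [CompleteSpace E] (on : ExampleOn H G E) : HasExample G κ

end Pool.Agent.U183.EQ
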