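import Pool.Agent.U183.EP.Fin
import Pool.Agent.U183.EP.Defs2
import Pool.Agent.N859.QW.Conv

/-!
# Comparison of the two forms of the definitions
-/

set_option autoImplicit false

open scoped InnerProductSpace
open Cardinal

namespace Pool.Agent.U183.EQ

open Pool.Agent.N859.QX
open Pool.Agent.N859 (QW.Aut QW.crossed QW.L2)
open Pool.Agent.U183 (EP.IsII1 EP.StrictlyOuter EP.AdmitsErgodicPerturbation EP.main)

theorem hasExample (G : Type) [Group G] [Infinite G] : HasExample G (Order.succ #G) := by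
  obtain ⟨H, _, _, _, M, ξ, α, ι, b, hι, hM, hα, hno⟩ := EP.main G
  refine ⟨H, ⟨ι, b, hι⟩, lp (fun _ : G => H) 2, ?_⟩
  refine ⟨M, ξ, ⟨hM.factor, hM.infinite, hM.unit, hM.tracial, hM.faithful⟩, ofHom α, co,
    QW.crossed M α, ⟨isL2_co, isCrossed α, ?_⟩, ?_⟩
  · intro T hT hc
    refine hα T hT fun x S hS => hc x x.2 S ⟨fun ζ g => ?_⟩
    unfold co
    rw [hS ζ g, ofHom_act]
  · intro v hv herg
    apply hno
    refine ⟨fun g => ⟨v g, hv.mem g⟩, ⟨fun g => ⟨Subtype.ext (hv.star_mul g),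
      Subtype.ext (hv.mul_star g)⟩, fun g h => Subtype.ext ?_⟩, fun x hx => ?_⟩
    · show v (g * h) = v g * (α g ⟨v h, hv.mem h⟩ : M.toStarSubalgebra)
      rw [hv.mul g h, ← ofHom_act α g ⟨v h, hv.mem h⟩]
    · obtain ⟨a, ha⟩ := herg.scalar x x.2 fun g => by
        rw [ofHom_act]
        exact congrArg Subtype.val (hx g)
      exact ⟨a, Subtype.ext ha⟩

end Pool.Agent.U183.EQ
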