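import Pool.Agent.N859.QW.Defs

/-!
# Strictly outer actions, cocycles and ergodic cocycle perturbations
-/

set_option autoImplicit false

open scoped InnerProductSpace CStarAlgebra

namespace Pool.Agent.U183.EP

open Pool.Agent.N859.QW

variable {H : Type} [NormedAddCommGroup H] [InnerProductSpace ℂ H] [CompleteSpace H]

/-- `M` is a II₁ factor whose tracial state is the vector state of `ξ`: `M` is an infinite
dimensional factor and the vector state `x ↦ ⟨ξ, x ξ⟩` is a faithful trace. -/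
structure IsII1 (M : VonNeumannAlgebra H) (ξ : H) : Prop where
  factor : ∀ z ∈ M, z ∈ M.commutant → ∃ c : ℂ, z = c • (1 : H →L[ℂ] H)
  infinite : ¬ FiniteDimensional ℂ M.toStarSubalgebra
  unit : ‖ξ‖ = 1
  tracial : ∀ x ∈ M, ∀ y ∈ M, ⟪ξ, x (y ξ)⟫_ℂ = ⟪ξ, y (x ξ)⟫_ℂ
  faithful : ∀ x ∈ M, x ξ = 0 → x = 0

variable {G : Type} [Group G]

/-- `T` is the operator `π(x)` of `x ∈ M` in the crossed product `M ⋊ G` on `ℓ²(G, H)`:
`(π(x) ζ)(g) = α_g⁻¹(x) ζ(g)`. -/
def IsCopy {M : VonNeumannAlgebra H} (α : G →* Aut M) (x : M.toStarSubalgebra)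
    (T : L2 G H →L[ℂ] L2 G H) : Prop :=
  ∀ (ζ : L2 G H) (g : G),
    (T ζ : ∀ _ : G, H) g = ((α g⁻¹ x : M.toStarSubalgebra) : H →L[ℂ] H) ((ζ : ∀ _ : G, H) g)

/-- The action `α` is strictly outer: `M' ∩ (M ⋊ G) = ℂ 1`. -/
def StrictlyOuter {M : VonNeumannAlgebra H} (α : G →* Aut M) : Prop :=
  ∀ T ∈ crossed M α, (∀ (x : M.toStarSubalgebra) (S : L2 G H →L[ℂ] L2 G H), IsCopy α x S →
    T * S = S * T) → ∃ c : ℂ, T = c • (1 : L2 G H →L[ℂ] L2 G H)

/-- `v` is a `1`-cocycle for the action `α`: a map to the unitaries of `M` with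
`v (g h) = v g α_g(v h)`. -/
structure IsCocycle {M : VonNeumannAlgebra H} (α : G →* Aut M) (v : G → M.toStarSubalgebra) :
    Prop where
  unitary : ∀ g, star (v g) * v g = 1 ∧ v g * star (v g) = 1
  mul : ∀ g h, v (g * h) = v g * α g (v h)

/-- The cocycle perturbation `g ↦ Ad(v g) ∘ α g` is ergodic: its fixed points are the scalars. -/
def ErgodicPerturbation {M : VonNeumannAlgebra H} (α : G →* Aut M) (v : G → M.toStarSubalgebra) :
    Prop :=
  ∀ x : M.toStarSubalgebra, (∀ g, v g * α g x * star (v g) = x) →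
    ∃ c : ℂ, x = c • (1 : M.toStarSubalgebra)

/-- The action admits an ergodic cocycle perturbation. -/
def AdmitsErgodicPerturbation {M : VonNeumannAlgebra H} (α : G →* Aut M) : Prop :=
  ∃ v : G → M.toStarSubalgebra, IsCocycle α v ∧ ErgodicPerturbation α v

end Pool.Agent.U183.EP
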