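import Pool.Agent.U183.EP.Main

/-!
# Strictly outer actions without ergodic cocycle perturbations: the group and the theorem
-/

set_option autoImplicit false

open scoped InnerProductSpace CStarAlgebra
open Cardinal

namespace Pool.Agent.U183.EP

open Pool.Agent.N859.QW Pool.Agent.N278.QW

section grp

variable (G : Type) [Group G]

open Classical in
/-- the homomorphism whose range is the group generated by the translations and transpositions of
`G` -/
noncomputable def fh : FreeGroup (G ⊕ G × G) →* Equiv.Perm G :=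
  FreeGroup.lift (Sum.elim (fun g : G => MulAction.toPermHom G G g)
    (fun p : G × G => Equiv.swap p.1 p.2))

/-- the group generated by the left translations and the transpositions of `G` -/
noncomputable def AA : Subgroup (Equiv.Perm G) := (fh G).range

variable {G}

theorem trans_mem (g : G) : MulAction.toPermHom G G g ∈ AA G :=
  ⟨FreeGroup.of (Sum.inl g), by simp [fh]⟩

open Classical in
theorem swap_mem (x y : G) : Equiv.swap x y ∈ AA G :=
  ⟨FreeGroup.of (Sum.inr (x, y)), by simp [fh]⟩

theorem sub_icc {X : Type} [Infinite X] (A : Subgroup (Equiv.Perm X))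
    (hA : ∀ x y, (by classical exact Equiv.swap x y) ∈ A) : ICC A := by
  classical
  intro σ hσ
  obtain ⟨x, hx⟩ : ∃ x, (σ : Equiv.Perm X) x ≠ x := by
    by_contra hc
    push Not at hc
    exact hσ (Subtype.ext (Equiv.ext hc))
  refine infinite_of_image (fun τ : A => (τ : Equiv.Perm X) x) _ {y | y ≠ x} ?_ ?_
  · exact (Set.finite_singleton x).infinite_compl
  · intro y hy
    refine ⟨_, ⟨⟨Equiv.swap ((σ : Equiv.Perm X) x) y, by convert hA _ _⟩, rfl⟩, ?_⟩
    show (Equiv.swap ((σ : Equiv.Perm X) x) y * (σ : Equiv.Perm X) *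
      (Equiv.swap ((σ : Equiv.Perm X) x) y)⁻¹) x = y
    rw [Equiv.swap_inv, Equiv.Perm.mul_apply, Equiv.Perm.mul_apply,
      Equiv.swap_apply_of_ne_of_ne (Ne.symm hx) (Ne.symm hy), Equiv.swap_apply_left]

theorem AA_icc [Infinite G] : ICC (AA G) := sub_icc _ fun x y => by convert swap_mem x y

theorem mk_AA [Infinite G] : #(AA G) ≤ #G := by
  have h1 : #(AA G) ≤ #(FreeGroup (G ⊕ G × G)) :=
    Cardinal.mk_le_of_surjective (fh G).rangeRestrict_surjective
  refine h1.trans ?_
  rw [Cardinal.mk_freeGroup, Cardinal.mk_sum, Cardinal.mk_prod, Cardinal.lift_id, Cardinal.lift_id]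
  rw [Cardinal.mul_eq_self (Cardinal.aleph0_le_mk G), Cardinal.add_eq_self (Cardinal.aleph0_le_mk G)]
  exact max_le le_rfl (Cardinal.aleph0_le_mk G)

/-- the translations -/
noncomputable def tr : G →* AA G := (MulAction.toPermHom G G).codRestrict (AA G) trans_mem

theorem tr_ne (g : G) (hg : g ≠ 1) : tr g ≠ 1 := by
  intro h
  apply hg
  have h1 : MulAction.toPermHom G G g = 1 := congrArg Subtype.val h
  have h2 := congrArg (fun σ : Equiv.Perm G => σ 1) h1
  simpa using h2

theorem mk_FS_le (I B : Type) [Group B] [Infinite I] : #(FS I B) ≤ max #I #B := by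
  have h1 : #(I →₀ Additive B) = max #I #(Additive B) ∨ #(I →₀ Additive B) ≤ max #I #B := by
    right
    by_cases hB : Nontrivial (Additive B)
    · rw [Cardinal.mk_finsupp_of_infinite]
      exact le_rfl
    · rw [not_nontrivial_iff_subsingleton] at hB
      have : #(I →₀ Additive B) ≤ 1 := Cardinal.le_one_iff_subsingleton.2 inferInstance
      exact this.trans ((Cardinal.one_le_aleph0.trans (Cardinal.aleph0_le_mk I)).trans
        (le_max_left _ _))
  have h2 : #(I →₀ Additive B) ≤ max #I #B := by
    rcases h1 with h | h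
    · rw [h]
      exact le_rfl
    · exact h
  refine le_trans ?_ h2
  refine Cardinal.mk_le_of_injective (f := fun f : FS I B =>
    Finsupp.ofSupportFinite (fun i => Additive.ofMul ((f : I → B) i)) ?_) ?_
  · exact f.2
  · intro f g hfg
    apply Subtype.ext
    funext i
    exact Additive.ofMul.injective (DFunLike.congr_fun hfg i)

theorem le_mk_FS (I B : Type) [Group B] (b : B) (hb : b ≠ 1) : #I ≤ #(FS I B) := by
  refine Cardinal.mk_le_of_injective (f := fun i : I => sg i b) ?_
  intro i j hij
  by_contra hne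
  apply hb
  have h1 : (sg i b : I → B) i = (sg j b : I → B) i := congrArg (fun f : FS I B => (f : I → B) i) hij
  rw [sg_same, sg_ne j i hne] at h1
  exact h1

end grp

section thm

variable {I A G : Type} [Group A] [Group G]

/-- no cocycle perturbation of the action on the restricted power is ergodic -/
theorem not_ergodic [Infinite G] (hI : #G < #I) (ι : G →* A) (c : A) (hc : c ≠ 1)
    (hcc : ∀ g, ι g * c * (ι g)⁻¹ = c) : ¬ AdmitsErgodicPerturbation (al (th I ι)) := by
  rintro ⟨v, hv, herg⟩
  -- the supports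
  set J : G → Set I := fun g => ⋃ x ∈ {x : FS I A |
    (((v g : (LG (FS I A)).toStarSubalgebra) : l2 (FS I A) →L[ℂ] l2 (FS I A)) (dl (FS I A)) :
      ∀ _ : FS I A, ℂ) x ≠ 0}, Function.mulSupport (x : I → A) with hJ
  have hJc : ∀ g, (J g).Countable := fun g =>
    (countable_supp _).biUnion fun x _ => (show (Function.mulSupport (x : I → A)).Finite from
      x.2).countable
  obtain ⟨i, hi⟩ : ∃ i, i ∉ ⋃ g, J g := by
    by_contra hcon
    push Not at hcon
    have h1 : #I ≤ #(⋃ g, J g) := by
      rw [← Cardinal.mk_univ]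
      exact Cardinal.mk_le_mk_of_subset fun i _ => hcon i
    have h2 : #(⋃ g, J g) ≤ #G := by
      refine (Cardinal.mk_iUnion_le_sum_mk).trans ?_
      have h3 : Cardinal.sum (fun g => #(J g)) ≤ Cardinal.sum (fun _ : G => ℵ₀) :=
        Cardinal.sum_le_sum _ _ fun g => (Cardinal.le_aleph0_iff_set_countable.2 (hJc g))
      refine h3.trans ?_
      rw [Cardinal.sum_const']
      exact (Cardinal.mul_aleph0_eq (Cardinal.aleph0_le_mk G)).le
    exact absurd hI (not_lt.2 (h1.trans h2))
  rw [Set.mem_iUnion, not_exists] at hi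
  have hfix : ∀ g, th I ι g (sg i c) = sg i c := by
    intro g
    apply Subtype.ext
    funext j
    rw [th_apply]
    by_cases hj : j = i
    · subst hj
      rw [sg_same, hcc]
    · rw [sg_ne i j hj, mul_one, mul_inv_cancel]
  have hcom : ∀ g, ((v g : (LG (FS I A)).toStarSubalgebra) : l2 (FS I A) →L[ℂ] l2 (FS I A)) *
      U (Lt (sg i c)) = U (Lt (sg i c)) *
        ((v g : (LG (FS I A)).toStarSubalgebra) : l2 (FS I A) →L[ℂ] l2 (FS I A)) := by
    intro g
    refine comm_of_supp _ (v g).2 _ fun x hx => ?_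
    have h1 : (x : I → A) i = 1 := by
      by_contra h2
      exact hi g (Set.mem_biUnion hx h2)
    apply Subtype.ext
    funext j
    show (x : I → A) j * (sg i c : I → A) j = (sg i c : I → A) j * (x : I → A) j
    by_cases hj : j = i
    · subst hj
      rw [h1, one_mul, mul_one]
    · rw [sg_ne i j hj, mul_one, one_mul]
  have hsg : (sg i c : FS I A) ≠ 1 := by
    intro h
    apply hc
    have := congrArg (fun f : FS I A => (f : I → A) i) h
    simpa [sg_same] using this
  apply Lt_not_scalar (sg i c) hsg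
  refine herg ⟨U (Lt (sg i c)), Lt_mem _⟩ fun g => ?_
  have h1 : al (th I ι) g ⟨U (Lt (sg i c)), Lt_mem _⟩ = ⟨U (Lt (sg i c)), Lt_mem _⟩ := by
    apply Subtype.ext
    ext ζ x
    rw [al_apply]
    show (Wt (th I ι g) (Lt (sg i c) (Wt (th I ι g)⁻¹ ζ)) : ∀ _ : FS I A, ℂ) x =
      (Lt (sg i c) ζ : ∀ _ : FS I A, ℂ) x
    rw [Wt_apply, Lt_apply, Wt_apply, Lt_apply, inv_inv, map_mul, MulAut.apply_inv_self, map_inv,
      hfix]
  rw [h1]
  have h2 : v g * ⟨U (Lt (sg i c)), Lt_mem _⟩ = ⟨U (Lt (sg i c)), Lt_mem _⟩ * v g :=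
    Subtype.ext (hcom g)
  rw [h2, mul_assoc, (hv.unitary g).2, mul_one]

/-- the action on the restricted power is strictly outer -/
theorem outer_FS [Infinite I] (hA : ICC A) (ι : G →* A) (hι : ∀ g, g ≠ 1 → ι g ≠ 1) :
    StrictlyOuter (al (th I ι)) := by
  refine outer _ fun g x hgx => ?_
  by_cases hg : g = 1
  · subst hg
    have hx : x ≠ 1 := fun h => hgx ⟨rfl, h⟩
    have := FS_icc (I := I) hA x hx
    simpa using this
  · exact FS_tw hA ι g⁻¹ (hι _ (inv_ne_one.2 hg)) x

theorem norm_dl (Λ : Type) [Group Λ] : ‖dl Λ‖ = 1 := by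
  classical
  unfold dl
  rw [lp.norm_single (by norm_num)]
  simp

/-- **Main theorem.** -/
theorem main (G : Type) [Group G] [Infinite G] :
    ∃ (H : Type) (_ : NormedAddCommGroup H) (_ : InnerProductSpace ℂ H) (_ : CompleteSpace H)
      (M : VonNeumannAlgebra H) (ξ : H) (α : G →* Aut M) (ι : Type) (_ : HilbertBasis ι ℂ H),
      #ι = Order.succ #G ∧ IsII1 M ξ ∧ StrictlyOuter α ∧ ¬ AdmitsErgodicPerturbation α := by
  classical
  set I : Type := (Order.succ #G).out with hIdef
  have hI : #I = Order.succ #G := Cardinal.mk_out _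
  have hlt : #G < #I := by
    rw [hI]
    exact Order.lt_succ _
  have hinf : Infinite I := Cardinal.infinite_iff.2 ((Cardinal.aleph0_le_mk G).trans hlt.le)
  let B : Type := AA G × AA G
  have hB : ICC B := prod_icc AA_icc AA_icc
  let ι : G →* B := (tr (G := G)).prod 1
  have hι : ∀ g, g ≠ 1 → ι g ≠ 1 := fun g hg h => tr_ne g hg (congrArg Prod.fst h)
  obtain ⟨g₀, hg₀⟩ := exists_ne (1 : G)
  let c : B := (1, tr g₀)
  have hc : c ≠ 1 := fun h => tr_ne g₀ hg₀ (congrArg Prod.snd h)
  have hcc : ∀ g, ι g * c * (ι g)⁻¹ = c := by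
    intro g
    apply Prod.ext
    · show tr g * 1 * (tr g)⁻¹ = 1
      rw [mul_one, mul_inv_cancel]
    · show 1 * tr g₀ * (1 : AA G)⁻¹ = tr g₀
      rw [inv_one, mul_one, one_mul]
  have hcard : #(FS I B) = Order.succ #G := by
    apply le_antisymm
    · refine (mk_FS_le I B).trans (max_le hI.le ?_)
      have : #B ≤ #G := by
        show #(AA G × AA G) ≤ #G
        rw [Cardinal.mk_prod, Cardinal.lift_id]
        exact (mul_le_mul' mk_AA mk_AA).trans (Cardinal.mul_eq_self (Cardinal.aleph0_le_mk G)).le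
      exact this.trans (Order.le_succ _)
    · rw [← hI]
      exact le_mk_FS I B c hc
  have hinfΛ : Infinite (FS I B) := Cardinal.infinite_iff.2 (by
    rw [hcard]
    exact (Cardinal.aleph0_le_mk G).trans (Order.le_succ _))
  refine ⟨l2 (FS I B), inferInstance, inferInstance, inferInstance, LG (FS I B), dl (FS I B),
    al (th I ι), FS I B, HilbertBasis.ofRepr (LinearIsometryEquiv.refl ℂ _), hcard, ?_,
    outer_FS hB ι hι, not_ergodic hlt ι c hc hcc⟩
  exact {
    factor := fun z hz hz' => Pool.Agent.N128.QW.center hz hz' (FS_icc hB)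
    infinite := Pool.Agent.N128.QW.infinite
    unit := norm_dl _
    tracial := fun x hx y hy => Pool.Agent.N128.QW.tracial hx hy
    faithful := fun x hx h => Pool.Agent.N128.QW.faithful hx h }

end thm

end Pool.Agent.U183.EP
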