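import Mathlib

/-!
# Restricted powers of a group with infinite conjugacy classes
-/

set_option autoImplicit false

namespace Pool.Agent.U183.EP

/-- all conjugacy classes except the trivial one are infinite -/
def ICC (A : Type) [Group A] : Prop :=
  ∀ a : A, a ≠ 1 → (Set.range fun g => g * a * g⁻¹).Infinite

/-- the restricted power: the functions `I → A` which are `1` outside a finite set -/
def FS (I A : Type) [Group A] : Subgroup (I → A) where
  carrier := {f | (Function.mulSupport f).Finite}
  one_mem' := by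
    show (Function.mulSupport (1 : I → A)).Finite
    rw [Function.mulSupport_one]
    exact Set.finite_empty
  mul_mem' := by
    intro a b ha hb
    exact (ha.union hb).subset (Function.mulSupport_mul a b)
  inv_mem' := by
    intro a ha
    show (Function.mulSupport (a⁻¹)).Finite
    rw [Function.mulSupport_inv]
    exact ha

variable {I A G : Type} [Group A] [Group G]

theorem mem_FS (f : I → A) : f ∈ FS I A ↔ (Function.mulSupport f).Finite := Iff.rfl

instance : (FS I A).Normal where
  conj_mem f hf g := by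
    refine Set.Finite.subset hf fun i hi => ?_
    rw [Function.mem_mulSupport] at hi ⊢
    intro h
    apply hi
    show g i * f i * (g i)⁻¹ = 1
    rw [h, mul_one, mul_inv_cancel]

/-- `G` acts on the restricted power by conjugation in every coordinate -/
def th (I : Type) (ι : G →* A) : G →* MulAut (FS I A) :=
  (MulAut.conjNormal (H := FS I A)).comp ((Pi.constMonoidHom I A).comp ι)

theorem th_apply (ι : G →* A) (g : G) (f : FS I A) (i : I) :
    ((th I ι g f : FS I A) : I → A) i = ι g * (f : I → A) i * (ι g)⁻¹ := by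
  unfold th
  simp [MulAut.conjNormal_apply]

open Classical in
/-- the element which is `a` at `i` and `1` elsewhere -/
noncomputable def sg (i : I) (a : A) : FS I A :=
  ⟨Pi.mulSingle i a, (Set.finite_singleton i).subset (Pi.mulSupport_mulSingle_subset)⟩

theorem sg_same (i : I) (a : A) : (sg i a : I → A) i = a := by
  classical
  unfold sg
  simp

theorem sg_ne (i j : I) (h : j ≠ i) (a : A) : (sg i a : I → A) j = 1 := by
  classical
  unfold sg
  simp [h]

theorem infinite_of_image {X Y : Type} (f : X → Y) (S : Set X) (T : Set Y) (hT : T.Infinite)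
    (h : T ⊆ f '' S) : S.Infinite := by
  intro hS
  exact hT ((hS.image f).subset h)

theorem FS_icc (h : ICC A) : ICC (FS I A) := by
  intro f hf
  obtain ⟨i, hi⟩ : ∃ i, (f : I → A) i ≠ 1 := by
    by_contra hc
    push Not at hc
    exact hf (Subtype.ext (funext hc))
  refine infinite_of_image (fun x : FS I A => (x : I → A) i) _ _ (h _ hi) ?_
  rintro _ ⟨g, rfl⟩
  refine ⟨_, ⟨sg i g, rfl⟩, ?_⟩
  show (sg i g : I → A) i * (f : I → A) i * ((sg i g : I → A) i)⁻¹ = _
  rw [sg_same]

theorem FS_tw [Infinite I] (h : ICC A) (ι : G →* A) (g : G) (hg : ι g ≠ 1) (f : FS I A) :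
    (Set.range fun b : FS I A => (th I ι g b) * f * b⁻¹).Infinite := by
  obtain ⟨i, hi⟩ := (show (Function.mulSupport (f : I → A)).Finite from f.2).exists_notMem
  rw [Function.notMem_mulSupport] at hi
  have h1 : (Set.range fun b => b * (ι g)⁻¹ * b⁻¹).Infinite := h _ (inv_ne_one.2 hg)
  have h2 : ((fun t => ι g * t) '' (Set.range fun b => b * (ι g)⁻¹ * b⁻¹)).Infinite :=
    h1.image (mul_right_injective (ι g)).injOn
  refine infinite_of_image (fun x : FS I A => (x : I → A) i) _ _ h2 ?_
  rintro _ ⟨_, ⟨b, rfl⟩, rfl⟩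
  refine ⟨_, ⟨sg i b, rfl⟩, ?_⟩
  show ((th I ι g (sg i b) : FS I A) : I → A) i * (f : I → A) i * ((sg i b : I → A) i)⁻¹ = _
  rw [th_apply, sg_same, hi]
  group

theorem perm_icc (X : Type) [Infinite X] : ICC (Equiv.Perm X) := by
  classical
  intro σ hσ
  obtain ⟨x, hx⟩ : ∃ x, σ x ≠ x := by
    by_contra hc
    push Not at hc
    exact hσ (Equiv.ext hc)
  refine infinite_of_image (fun τ : Equiv.Perm X => τ x) _ {y | y ≠ x} ?_ ?_
  · have := (Set.finite_singleton x).infinite_compl
    exact this
  · intro y hy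
    refine ⟨_, ⟨Equiv.swap (σ x) y, rfl⟩, ?_⟩
    show (Equiv.swap (σ x) y * σ * (Equiv.swap (σ x) y)⁻¹) x = y
    rw [Equiv.swap_inv, Equiv.Perm.mul_apply, Equiv.Perm.mul_apply,
      Equiv.swap_apply_of_ne_of_ne (Ne.symm hx) (Ne.symm hy), Equiv.swap_apply_left]

theorem prod_icc {A B : Type} [Group A] [Group B] (hA : ICC A) (hB : ICC B) : ICC (A × B) := by
  rintro ⟨a, b⟩ hab
  by_cases ha : a = 1
  · have hb : b ≠ 1 := by
      rintro rfl
      exact hab (by rw [ha]; rfl)
    refine infinite_of_image Prod.snd _ _ (hB b hb) ?_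
    rintro _ ⟨g, rfl⟩
    exact ⟨_, ⟨(1, g), rfl⟩, rfl⟩
  · refine infinite_of_image Prod.fst _ _ (hA a ha) ?_
    rintro _ ⟨g, rfl⟩
    exact ⟨_, ⟨(g, 1), rfl⟩, rfl⟩

end Pool.Agent.U183.EP
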