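import Pool.Agent.U183.EP.Defs
import Pool.Agent.U183.EP.Grp
import Pool.Agent.N128.QW.HF
import Pool.Agent.N278.QW.Cross

/-!
# Strictly outer actions without ergodic cocycle perturbations
-/

set_option autoImplicit false

open scoped InnerProductSpace CStarAlgebra

namespace Pool.Agent.U183.EP

open Pool.Agent.N859.QW Pool.Agent.N278.QW

section lptwo

variable {Λ : Type}

theorem const_zero (ζ : l2 Λ) (x : Λ) (S : Set Λ) (hS : S.Infinite)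
    (h : ∀ y ∈ S, (ζ : ∀ _ : Λ, ℂ) y = (ζ : ∀ _ : Λ, ℂ) x) : (ζ : ∀ _ : Λ, ℂ) x = 0 := by
  by_contra hne
  have h3 : Summable fun x => ‖(ζ : ∀ _ : Λ, ℂ) x‖ ^ (2 : ENNReal).toReal :=
    (memℓp_gen_iff (by norm_num)).1 (lp.memℓp ζ)
  rw [Pool.Agent.N128.QW.two_real] at h3
  have h4 := h3.tendsto_cofinite_zero
  have hpos : 0 < ‖(ζ : ∀ _ : Λ, ℂ) x‖ ^ (2 : ℝ) := Real.rpow_pos_of_pos (norm_pos_iff.2 hne) _
  have h5 := h4.eventually (gt_mem_nhds hpos)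
  rw [Filter.eventually_cofinite] at h5
  apply hS
  refine h5.subset ?_
  intro y hy
  simp only [Set.mem_ofPred_eq, not_lt]
  rw [h y hy]

theorem countable_supp (ζ : l2 Λ) : {x | (ζ : ∀ _ : Λ, ℂ) x ≠ 0}.Countable := by
  have h3 : Summable fun x => ‖(ζ : ∀ _ : Λ, ℂ) x‖ ^ (2 : ENNReal).toReal :=
    (memℓp_gen_iff (by norm_num)).1 (lp.memℓp ζ)
  refine h3.countable_support.mono fun x hx => ?_
  rw [Function.mem_support, Pool.Agent.N128.QW.two_real]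
  exact (Real.rpow_pos_of_pos (norm_pos_iff.2 hx) _).ne'

end lptwo

section outer

variable {Λ G : Type} [Group Λ] [Group G]

open Classical in
/-- the basis vectors of `ℓ²(G, ℓ²(Λ))` -/
noncomputable def bs (g : G) (x : Λ) : L2 G (l2 Λ) := lp.single 2 g (lp.single 2 x (1 : ℂ))

open Classical in
omit [Group Λ] [Group G] in
theorem bs_apply (g h : G) (x y : Λ) :
    ((bs g x : ∀ _ : G, l2 Λ) h : ∀ _ : Λ, ℂ) y = if h = g ∧ y = x then 1 else 0 := by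
  unfold bs
  by_cases h1 : h = g
  · subst h1
    rw [lp.single_apply_self]
    by_cases h' : y = x
    · subst h'
      rw [lp.single_apply_self, if_pos ⟨rfl, rfl⟩]
    · rw [lp.single_apply_ne _ _ _ h', if_neg fun h => h' h.2]
  · rw [lp.single_apply_ne _ _ _ h1, if_neg fun h' => h1 h'.1]
    rfl

omit [Group G] in
/-- an operator which kills the basis vectors is zero -/
theorem zero_of_bs (T : L2 G (l2 Λ) →L[ℂ] L2 G (l2 Λ)) (h : ∀ g x, T (bs g x) = 0) : T = 0 := by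
  classical
  have h1 : ∀ (g : G) (η : l2 Λ), T (lp.single 2 g η) = 0 := by
    intro g η
    let L : l2 Λ →L[ℂ] L2 G (l2 Λ) :=
      { toLinearMap := lp.lsingle (𝕜 := ℂ) (E := fun _ : G => l2 Λ) 2 g
        cont := (lp.isometry_single (E := fun _ : G => l2 Λ) (p := 2) g).continuous }
    have h2 := (Pool.Agent.N128.QW.hasSum_dd η).mapL (T.comp L)
    have h3 : (fun b => (T.comp L) ((η : ∀ _ : Λ, ℂ) b • Pool.Agent.N128.QW.dd b)) =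
        fun _ => 0 := by
      funext b
      rw [map_smul]
      have h4 : (T.comp L) (Pool.Agent.N128.QW.dd b) = T (bs g b) := by
        show T (lp.single 2 g (Pool.Agent.N128.QW.dd b)) = T (bs g b)
        unfold bs Pool.Agent.N128.QW.dd
        congr!
      rw [h4, h, smul_zero]
    rw [h3] at h2
    exact h2.unique hasSum_zero
  refine ContinuousLinearMap.ext fun ζ => ?_
  have h2 := (lp.hasSum_single (p := 2) (by norm_num) ζ).mapL T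
  have h3 : (fun b => T (lp.single 2 b ((ζ : ∀ _ : G, l2 Λ) b))) = fun _ => 0 := by
    funext b
    exact h1 b _
  rw [h3] at h2
  exact h2.unique hasSum_zero

theorem bs_one : bs (1 : G) (1 : Λ) = xi Λ G := by
  classical
  apply lp.ext
  funext g
  apply lp.ext
  funext x
  rw [bs_apply, xi_apply]

theorem bs_eq (θ : G →* MulAut Λ) (g : G) (x : Λ) :
    bs g x = rr θ ⟨θ g x, g⟩ (xi Λ G) := by
  classical
  apply lp.ext
  funext h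
  apply lp.ext
  funext y
  rw [bs_apply, rr_xi, xi_apply]
  congr 1
  rw [eq_iff_iff]
  show _ ↔ h * g⁻¹ = 1 ∧ θ g y * (θ g x)⁻¹ = 1
  rw [mul_inv_eq_one, mul_inv_eq_one, (θ g).injective.eq_iff]

theorem PaRa (θ : G →* MulAut Λ) (a : Λ) : Pa θ a (xi Λ G) = Ra G a (xi Λ G) := by
  classical
  apply lp.ext
  funext g
  apply lp.ext
  funext x
  rw [Pa_apply, Ra_apply, Rt_apply, xi_apply, xi_apply]
  congr 1
  rw [eq_iff_iff]
  constructor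
  · rintro ⟨rfl, h⟩
    refine ⟨rfl, ?_⟩
    rw [inv_one, map_one, inv_mul_eq_one] at h
    rw [← h]
    exact mul_inv_cancel a
  · rintro ⟨rfl, h⟩
    refine ⟨rfl, ?_⟩
    rw [inv_one, map_one, inv_mul_eq_one]
    rw [mul_inv_eq_one] at h
    exact h.symm

/-- the action is strictly outer if the twisted conjugacy classes are infinite -/
theorem outer (θ : G →* MulAut Λ)
    (h : ∀ (g : G) (x : Λ), ¬ (g = 1 ∧ x = 1) →
      (Set.range fun a => (θ g⁻¹ a) * x * a⁻¹).Infinite) : StrictlyOuter (al θ) := by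
  classical
  intro T hT hc
  have h1 : ∀ a : Λ, T * U (Pa θ a) = U (Pa θ a) * T := by
    intro a
    refine hc ⟨U (Lt a), Lt_mem a⟩ _ fun ζ g => ?_
    ext x
    rw [al_apply]
    show ((Pa θ a ζ : ∀ _ : G, l2 Λ) g : ∀ _ : Λ, ℂ) x =
      (Wt (θ g⁻¹) (Lt a (Wt (θ g⁻¹)⁻¹ ((ζ : ∀ _ : G, l2 Λ) g))) : ∀ _ : Λ, ℂ) x
    rw [Pa_apply, Wt_apply, Lt_apply, Wt_apply, inv_inv, map_mul, MulAut.apply_inv_self,
      map_inv (θ g⁻¹) a]
  have h2 : ∀ a : Λ, T * U (Ra G a) = U (Ra G a) * T := fun a => comm_vN hT (Ra_cent θ a)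
  have h3 : ∀ a : Λ, Pa θ a (T (xi Λ G)) = Ra G a (T (xi Λ G)) := by
    intro a
    have e1 : T (Pa θ a (xi Λ G)) = Pa θ a (T (xi Λ G)) :=
      congrArg (fun S : L2 G (l2 Λ) →L[ℂ] L2 G (l2 Λ) => S (xi Λ G)) (h1 a)
    have e2 : T (Ra G a (xi Λ G)) = Ra G a (T (xi Λ G)) :=
      congrArg (fun S : L2 G (l2 Λ) →L[ℂ] L2 G (l2 Λ) => S (xi Λ G)) (h2 a)
    rw [← e1, ← e2, PaRa]
  set Z : L2 G (l2 Λ) := T (xi Λ G) with hZ
  have h4 : ∀ (a : Λ) (g : G) (x : Λ), ((Z : ∀ _ : G, l2 Λ) g : ∀ _ : Λ, ℂ)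
      ((θ g⁻¹ a) * x * a⁻¹) = ((Z : ∀ _ : G, l2 Λ) g : ∀ _ : Λ, ℂ) x := by
    intro a g x
    have e1 : ((Pa θ a Z : ∀ _ : G, l2 Λ) g : ∀ _ : Λ, ℂ) ((θ g⁻¹ a) * x) =
        ((Ra G a Z : ∀ _ : G, l2 Λ) g : ∀ _ : Λ, ℂ) ((θ g⁻¹ a) * x) := by rw [h3]
    rw [Pa_apply, Ra_apply, Rt_apply, inv_mul_cancel_left] at e1
    exact e1.symm
  have h5 : ∀ (g : G) (x : Λ), ¬ (g = 1 ∧ x = 1) → ((Z : ∀ _ : G, l2 Λ) g : ∀ _ : Λ, ℂ) x = 0 := by
    intro g x hgx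
    refine const_zero _ x _ (h g x hgx) ?_
    rintro _ ⟨a, rfl⟩
    exact h4 a g x
  set c : ℂ := ((Z : ∀ _ : G, l2 Λ) 1 : ∀ _ : Λ, ℂ) 1 with hcdef
  refine ⟨c, ?_⟩
  have h6 : T - c • (1 : L2 G (l2 Λ) →L[ℂ] L2 G (l2 Λ)) ∈ crossed (LG Λ) (al θ) :=
    sub_mem hT ((crossed (LG Λ) (al θ)).toStarSubalgebra.smul_mem
      (one_mem (crossed (LG Λ) (al θ)).toStarSubalgebra) c)
  have h7 : (T - c • (1 : L2 G (l2 Λ) →L[ℂ] L2 G (l2 Λ))) (xi Λ G) = 0 := by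
    apply lp.ext
    funext g
    apply lp.ext
    funext x
    have e1 : (((T - c • (1 : L2 G (l2 Λ) →L[ℂ] L2 G (l2 Λ))) (xi Λ G) : ∀ _ : G, l2 Λ) g :
        ∀ _ : Λ, ℂ) x = ((Z : ∀ _ : G, l2 Λ) g : ∀ _ : Λ, ℂ) x -
          c * ((xi Λ G : ∀ _ : G, l2 Λ) g : ∀ _ : Λ, ℂ) x := rfl
    rw [e1, xi_apply]
    by_cases hgx : g = 1 ∧ x = 1
    · rw [if_pos hgx, hgx.1, hgx.2, mul_one, hcdef, sub_self]
      rfl
    · rw [if_neg hgx, h5 g x hgx, mul_zero, sub_zero]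
      rfl
  refine sub_eq_zero.1 (zero_of_bs _ fun g x => ?_)
  rw [bs_eq θ]
  have e2 := congrArg (fun S : L2 G (l2 Λ) →L[ℂ] L2 G (l2 Λ) => S (xi Λ G))
    (rr_comm θ ⟨θ g x, g⟩ _ h6)
  have e3 : (T - c • (1 : L2 G (l2 Λ) →L[ℂ] L2 G (l2 Λ))) (rr θ ⟨θ g x, g⟩ (xi Λ G)) =
    rr θ ⟨θ g x, g⟩ ((T - c • (1 : L2 G (l2 Λ) →L[ℂ] L2 G (l2 Λ))) (xi Λ G)) := e2
  rw [e3, h7, map_zero]

end outer

section fixed

variable {Λ : Type} [Group Λ]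

/-- an element of `L(Λ)` commutes with the translation by `c` if the support of its Fourier series
commutes with `c` -/
theorem comm_of_supp (y : l2 Λ →L[ℂ] l2 Λ) (hy : y ∈ LG Λ) (c : Λ)
    (h : ∀ x : Λ, (y (dl Λ) : ∀ _ : Λ, ℂ) x ≠ 0 → x * c = c * x) :
    y * U (Lt c) = U (Lt c) * y := by
  have h1 : y * U (Lt c) - U (Lt c) * y ∈ LG Λ :=
    sub_mem (mul_mem hy (Lt_mem c)) (mul_mem (Lt_mem c) hy)
  refine sub_eq_zero.1 (Pool.Agent.N128.QW.faithful h1 ?_)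
  have h2 : Lt c (dl Λ) = Rt c (dl Λ) := by
    classical
    ext x
    rw [Lt_apply, Rt_apply]
    have e : ∀ z : Λ, (dl Λ : ∀ _ : Λ, ℂ) z = if z = 1 then 1 else 0 :=
      fun z => Pool.Agent.N128.QW.dd_apply 1 z
    rw [e, e]
    congr 1
    rw [eq_iff_iff, inv_mul_eq_one, mul_inv_eq_one]
    exact ⟨fun h => h.symm, fun h => h.symm⟩
  have h3 : y (Lt c (dl Λ)) = Rt c (y (dl Λ)) := by
    rw [h2]
    exact Rt_comm c y hy _
  show y (Lt c (dl Λ)) - Lt c (y (dl Λ)) = 0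
  rw [h3, sub_eq_zero]
  ext x
  rw [Lt_apply, Rt_apply]
  by_cases h4 : (y (dl Λ) : ∀ _ : Λ, ℂ) (x * c⁻¹) = 0
  · by_cases h5 : (y (dl Λ) : ∀ _ : Λ, ℂ) (c⁻¹ * x) = 0
    · rw [h4, h5]
    · have h6 := h _ h5
      have h7 : c⁻¹ * x = x * c⁻¹ := by
        rw [eq_mul_inv_iff_mul_eq, h6, mul_inv_cancel_left]
      rw [h7]
  · have h6 := h _ h4
    have h7 : c⁻¹ * x = x * c⁻¹ := by
      rw [inv_mul_eq_iff_eq_mul, ← h6, inv_mul_cancel_right]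
    rw [h7]

theorem Lt_not_scalar (c : Λ) (hc : c ≠ 1) :
    ¬ ∃ k : ℂ, (⟨U (Lt c), Lt_mem c⟩ : (LG Λ).toStarSubalgebra) =
      k • (1 : (LG Λ).toStarSubalgebra) := by
  classical
  rintro ⟨k, hk⟩
  have h1 : U (Lt c) = k • (1 : l2 Λ →L[ℂ] l2 Λ) := congrArg Subtype.val hk
  have h2 : ((U (Lt c)) (dl Λ) : ∀ _ : Λ, ℂ) c = ((k • (1 : l2 Λ →L[ℂ] l2 Λ)) (dl Λ) :
    ∀ _ : Λ, ℂ) c := by rw [h1]
  have e : ∀ z : Λ, (dl Λ : ∀ _ : Λ, ℂ) z = if z = 1 then 1 else 0 :=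
    fun z => Pool.Agent.N128.QW.dd_apply 1 z
  have h3 : ((U (Lt c)) (dl Λ) : ∀ _ : Λ, ℂ) c = (dl Λ : ∀ _ : Λ, ℂ) (c⁻¹ * c) := rfl
  have h4 : ((k • (1 : l2 Λ →L[ℂ] l2 Λ)) (dl Λ) : ∀ _ : Λ, ℂ) c =
    k * (dl Λ : ∀ _ : Λ, ℂ) c := rfl
  rw [h3, h4, inv_mul_cancel, e, e, if_pos rfl, if_neg hc, mul_zero] at h2
  exact one_ne_zero h2

end fixed

end Pool.Agent.U183.EP
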